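import Mathlib

/-!
# Propermutability is not inherited by intermediate subgroups

`G` is the group of order `81` which is the central product of the Heisenberg group of order `27`
(exponent `3`) and the cyclic group of order `9`.
-/

set_option autoImplicit false

namespace Pool.Agent.Results.MP_1ee7a3_al.NotInherited

open scoped Pointwise

/-- `H` is propermutable in `G`: there is a subgroup `T` of `G` with `G = N_G(H) T` such that
`H K = K H` for every subgroup `K` of `T`. -/
def Propermutable {G : Type} [Group G] (H : Subgroup G) : Prop :=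
  ∃ T : Subgroup G,
    ((Subgroup.normalizer (H : Set G) : Subgroup G) : Set G) * (T : Set G) = Set.univ ∧
      ∀ K : Subgroup G, K ≤ T → (H : Set G) * (K : Set G) = (K : Set G) * (H : Set G)

/-! ### The group of order 81 -/

/-- The embedding `ℤ/3 → ℤ/9`, `x ↦ 3x`. -/
def iota (x : ZMod 3) : ZMod 9 := 3 * (x.val : ZMod 9)

lemma iota_add : ∀ x y : ZMod 3, iota (x + y) = iota x + iota y := by decide

lemma iota_zero : iota 0 = 0 := by decide

lemma iota_neg : ∀ x : ZMod 3, iota (-x) = - iota x := by decide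

lemma three_iota : ∀ x : ZMod 3, 3 * iota x = 0 := by decide

/-- The central product of the Heisenberg group of order 27 and `ℤ/9`. -/
@[ext]
structure C where
  x : ZMod 3
  y : ZMod 3
  w : ZMod 9
deriving DecidableEq

instance : Mul C := ⟨fun a b => ⟨a.x + b.x, a.y + b.y, a.w + b.w + iota (a.x * b.y)⟩⟩
instance : One C := ⟨⟨0, 0, 0⟩⟩
instance : Inv C := ⟨fun a => ⟨-a.x, -a.y, -a.w + iota (a.x * a.y)⟩⟩

@[simp] lemma mul_x (a b : C) : (a * b).x = a.x + b.x := rfl
@[simp] lemma mul_y (a b : C) : (a * b).y = a.y + b.y := rfl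
@[simp] lemma mul_w (a b : C) : (a * b).w = a.w + b.w + iota (a.x * b.y) := rfl
@[simp] lemma one_x : (1 : C).x = 0 := rfl
@[simp] lemma one_y : (1 : C).y = 0 := rfl
@[simp] lemma one_w : (1 : C).w = 0 := rfl
@[simp] lemma inv_x (a : C) : (a⁻¹).x = -a.x := rfl
@[simp] lemma inv_y (a : C) : (a⁻¹).y = -a.y := rfl
@[simp] lemma inv_w (a : C) : (a⁻¹).w = -a.w + iota (a.x * a.y) := rfl

instance : Group C := Group.ofLeftAxioms
  (by
    intro a b c
    ext
    · simp [add_assoc]
    · simp [add_assoc]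
    · simp only [mul_w, mul_x, mul_y, add_mul, mul_add, iota_add]; abel)
  (by intro a; ext <;> simp [iota_zero])
  (by
    intro a
    ext
    · simp
    · simp
    · simp only [mul_w, inv_x, inv_w, one_w, neg_mul, iota_neg]; abel)

/-- `C` as a product. -/
def toProd : C ≃ ZMod 3 × ZMod 3 × ZMod 9 where
  toFun a := (a.x, a.y, a.w)
  invFun p := ⟨p.1, p.2.1, p.2.2⟩
  left_inv _ := rfl
  right_inv _ := rfl

instance : Fintype C := Fintype.ofEquiv _ toProd.symm

/-- The generator of `A`. -/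
def a : C := ⟨1, 0, 0⟩

/-- The generator of `T`. -/
def t : C := ⟨0, 1, 1⟩

/-- The subgroup `B`: the Heisenberg group of order `27` and exponent `3`. -/
def B : Subgroup C where
  carrier := {g | 3 * g.w = 0}
  mul_mem' := by
    intro g h hg hh
    simp only [Set.mem_ofPred_eq] at hg hh ⊢
    rw [mul_w, mul_add, mul_add, hg, hh, three_iota]
    simp
  one_mem' := by simp
  inv_mem' := by
    intro g hg
    simp only [Set.mem_ofPred_eq] at hg ⊢
    rw [inv_w, mul_add, three_iota, mul_neg, hg]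
    simp

lemma a_cube : a ^ 3 = 1 := by decide

lemma conj_t : a * t * a⁻¹ = t ^ 4 := by decide

lemma conj_t' : a⁻¹ * t * a = t ^ 7 := by decide

lemma conj_T {k : C} (hk : k ∈ Subgroup.zpowers t) : a * k * a⁻¹ = k ^ 4 := by
  obtain ⟨n, rfl⟩ := Subgroup.mem_zpowers_iff.1 hk
  rw [← conj_zpow, conj_t]
  group

lemma conj_T' {k : C} (hk : k ∈ Subgroup.zpowers t) : a⁻¹ * k * a = k ^ 7 := by
  obtain ⟨n, rfl⟩ := Subgroup.mem_zpowers_iff.1 hk
  have h : a⁻¹ * t ^ n * a = (a⁻¹ * t * a) ^ n := by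
    have := conj_zpow (i := n) (a := a⁻¹) (b := t)
    simpa using this.symm
  rw [h, conj_t']
  group

lemma a_norm {K : Subgroup C} (hK : K ≤ Subgroup.zpowers t) :
    a ∈ Subgroup.normalizer (K : Set C) := by
  rw [Subgroup.mem_normalizer_iff]
  intro k
  constructor
  · intro hk
    rw [conj_T (hK hk)]
    exact K.pow_mem hk 4
  · intro hk
    have h := conj_T' (hK hk)
    have h2 : a⁻¹ * (a * k * a⁻¹) * a = k := by group
    rw [h2] at h
    rw [h]
    exact K.pow_mem hk 7

lemma permA {K : Subgroup C} (hK : K ≤ Subgroup.zpowers t) :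
    ((Subgroup.zpowers a : Subgroup C) : Set C) * (K : Set C) =
      (K : Set C) * ((Subgroup.zpowers a : Subgroup C) : Set C) := by
  have hN : Subgroup.zpowers a ≤ Subgroup.normalizer (K : Set C) := by
    rw [Subgroup.zpowers_le]; exact a_norm hK
  ext g
  constructor
  · rintro ⟨h, hh, k, hk, rfl⟩
    refine ⟨h * k * h⁻¹, ?_, h, hh, ?_⟩
    · exact ((Subgroup.mem_normalizer_iff.1 (hN hh)) k).1 hk
    · simp
  · rintro ⟨k, hk, h, hh, rfl⟩
    refine ⟨h, hh, h⁻¹ * k * h, ?_, ?_⟩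
    · have := ((Subgroup.mem_normalizer_iff.1 (hN (inv_mem hh))) k).1 hk
      simpa using this
    · simp [mul_assoc]

lemma exists_shift : ∀ g : C, ∃ k : Fin 3, (g * (t ^ (k : ℕ))⁻¹).y = 0 := by decide

lemma comm_a : ∀ n : C, n.y = 0 → n * a = a * n := by decide

theorem propermutable_G : Propermutable (Subgroup.zpowers a) := by
  refine ⟨Subgroup.zpowers t, ?_, fun K hK => permA hK⟩
  ext g
  simp only [Set.mem_univ, iff_true]
  obtain ⟨k, hk⟩ := exists_shift g
  refine ⟨g * (t ^ (k : ℕ))⁻¹, ?_, t ^ (k : ℕ), ?_, by simp⟩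
  · have hc : Commute (g * (t ^ (k : ℕ))⁻¹) a := comm_a _ hk
    change _ ∈ Subgroup.normalizer _
    rw [Subgroup.mem_normalizer_iff]
    intro h
    constructor
    · intro hh
      obtain ⟨n, rfl⟩ := Subgroup.mem_zpowers_iff.1 hh
      rw [(hc.zpow_right n).eq, mul_inv_cancel_right]
      exact hh
    · intro hh
      obtain ⟨n, hn⟩ := Subgroup.mem_zpowers_iff.1 hh
      have : h = a ^ n := by
        have h3 := (hc.zpow_right n).eq
        set u := g * (t ^ (k : ℕ))⁻¹
        have h4 : u * h = a ^ n * u := by rw [hn]; group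
        rw [← h3] at h4
        exact mul_left_cancel h4
      rw [this]
      exact Subgroup.mem_zpowers_iff.2 ⟨n, rfl⟩
  · exact Subgroup.pow_mem _ (Subgroup.mem_zpowers t) _

lemma cube_B : ∀ c : C, 3 * c.w = 0 → c ^ 3 = 1 := by decide

lemma zpow_cases {c : C} (hc : c ^ 3 = 1) (i : ℤ) : ∃ k : Fin 3, c ^ i = c ^ (k : ℕ) := by
  have h0 : 0 ≤ i % 3 := Int.emod_nonneg _ (by norm_num)
  have h1 : i % 3 < 3 := Int.emod_lt_of_pos _ (by norm_num)
  refine ⟨⟨(i % 3).toNat, by omega⟩, ?_⟩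
  have h2 : i = 3 * (i / 3) + i % 3 := (Int.mul_ediv_add_emod i 3).symm
  have h3 : c ^ (3 : ℤ) = 1 := by exact_mod_cast hc
  have h4 : ((i % 3).toNat : ℤ) = i % 3 := Int.toNat_of_nonneg h0
  calc c ^ i = c ^ (3 * (i / 3) + i % 3) := by rw [← h2]
    _ = c ^ (i % 3) := by rw [zpow_add, zpow_mul, h3, one_zpow, one_mul]
    _ = c ^ (((i % 3).toNat : ℕ) : ℤ) := by rw [h4]
    _ = _ := by rw [zpow_natCast]

lemma norm_y : ∀ n : C, (∃ k : Fin 3, n * a * n⁻¹ = a ^ (k : ℕ)) → n.y = 0 := by decide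

lemma not_perm : ∀ c : C, c.y = 1 → 3 * c.w = 0 →
    ∀ i j : Fin 3, a * c ≠ c ^ (i : ℕ) * a ^ (j : ℕ) := by decide

lemma a_mem_B : a ∈ B := by change 3 * a.w = 0; decide

theorem not_propermutable_B : ¬ Propermutable ((Subgroup.zpowers a).subgroupOf B) := by
  rintro ⟨T, hT, hP⟩
  -- the element `b`
  have hb : (⟨0, 1, 0⟩ : C) ∈ B := by change (3 : ZMod 9) * 0 = 0; decide
  have hmem : (⟨⟨0, 1, 0⟩, hb⟩ : B) ∈ (Set.univ : Set B) := Set.mem_univ _
  rw [← hT] at hmem
  obtain ⟨n, hn, c, hc, hnc⟩ := hmem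
  have ha : (⟨a, a_mem_B⟩ : B) ∈ (Subgroup.zpowers a).subgroupOf B := by
    rw [Subgroup.mem_subgroupOf]; exact Subgroup.mem_zpowers a
  have hny : (n : C).y = 0 := by
    apply norm_y
    change n ∈ Subgroup.normalizer _ at hn
    rw [Subgroup.mem_normalizer_iff] at hn
    have h1 := (hn ⟨a, a_mem_B⟩).1 ha
    rw [Subgroup.mem_subgroupOf] at h1
    obtain ⟨i, hi⟩ := Subgroup.mem_zpowers_iff.1 h1
    obtain ⟨k, hk⟩ := zpow_cases a_cube i
    refine ⟨k, ?_⟩
    rw [← hk, hi]
    rfl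
  replace hnc : n * c = ⟨⟨0, 1, 0⟩, hb⟩ := hnc
  replace hc : c ∈ T := hc
  have hcy : (c : C).y = 1 := by
    have h1 : ((n * c : B) : C).y = 1 := by rw [hnc]
    have h2 : ((n * c : B) : C).y = (n : C).y + (c : C).y := rfl
    rw [h2, hny, zero_add] at h1
    exact h1
  have hcw : 3 * (c : C).w = 0 := c.2
  have hK := hP (Subgroup.zpowers c) (by rw [Subgroup.zpowers_le]; exact hc)
  have h1 : (⟨a, a_mem_B⟩ : B) * c ∈
      (((Subgroup.zpowers a).subgroupOf B : Subgroup B) : Set B) *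
        ((Subgroup.zpowers c : Subgroup B) : Set B) :=
    Set.mul_mem_mul ha (Subgroup.mem_zpowers c)
  rw [hK] at h1
  obtain ⟨k, hk, h, hh, hkh⟩ := h1
  obtain ⟨i, rfl⟩ := Subgroup.mem_zpowers_iff.1 hk
  change h ∈ (Subgroup.zpowers a).subgroupOf B at hh
  rw [Subgroup.mem_subgroupOf] at hh
  obtain ⟨j, hj⟩ := Subgroup.mem_zpowers_iff.1 hh
  obtain ⟨i', hi'⟩ := zpow_cases (cube_B (c : C) hcw) i
  obtain ⟨j', hj'⟩ := zpow_cases a_cube j
  apply not_perm (c : C) hcy hcw i' j'
  have h3 : ((c ^ i * h : B) : C) = a * (c : C) := congrArg Subtype.val hkh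
  rw [← hi', ← hj', hj, ← h3]
  simp

/-- **Q1 of MP_1ee7a3_al has a positive answer**: there are a finite group `G` and subgroups
`A ≤ B ≤ G` such that `A` is propermutable in `G`, but `A` is not propermutable in `B`. -/
theorem result : ∃ (G : Type) (_ : Group G) (_ : Finite G) (A B : Subgroup G),
    A ≤ B ∧ Propermutable A ∧ ¬ Propermutable (A.subgroupOf B) :=
  ⟨C, inferInstance, inferInstance, Subgroup.zpowers a, B,
    by rw [Subgroup.zpowers_le]; exact a_mem_B, propermutable_G, not_propermutable_B⟩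

end Pool.Agent.Results.MP_1ee7a3_al.NotInherited
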